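import Pool.Agent.Lib.MP_abcfcd_nt.L.Prod
import Pool.Agent.Lib.MP_abcfcd_nt.N.Psi

/-!
# Rational numbers which are integral at all primes and small at infinity

PROOF. `small_int`: `z = ⟨x, y⟩` with `x, y ∈ ℚ` integral at all primes are integers (`rat_int`), of
absolute value less than `1`, hence `0`. `small_nhds`: the set `{z : E7 ℝ | |re| < 1 ∧ |im| < 1}`
is a
neighbourhood of `0`.
-/

set_option autoImplicit false

open Matrix MeasureTheory Topology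
open scoped ENNReal NNReal ComplexConjugate RestrictedProduct

namespace Pool.Agent.MPabcfcd

private theorem na {p : Nat.Primes} (x y : ℚ_[p]) {c : ℝ} (hx : ‖x‖ ≤ c) (hy : ‖y‖ ≤ c) :
    ‖x + y‖ ≤ c :=
  (Padic.nonarchimedean x y).trans (max_le hx hy)

private theorem ml {p : Nat.Primes} {x y : ℚ_[p]} {c : ℝ} (hx : ‖x‖ ≤ c) (hy : ‖y‖ ≤ 1) :
    ‖x * y‖ ≤ c := by
  rw [norm_mul]
  have h0 : 0 ≤ ‖x‖ := norm_nonneg x
  have h1 : 0 ≤ ‖y‖ := norm_nonneg y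
  nlinarith

private theorem n7 {p : Nat.Primes} : ‖(-7 : ℚ_[p])‖ ≤ 1 := by
  have h := Padic.norm_int_le_one (p := (p : ℕ)) (-7)
  simpa using h

private theorem n77 : ‖(-7 : ℚ_[p7])‖ ≤ 1 / 7 := by
  have h := Padic.norm_p (p := (p7 : ℕ))
  have h7 : (((p7 : ℕ) : ℕ) : ℚ_[p7]) = 7 := by
    have h9 : ((7 : ℕ) : ℚ_[p7]) = 7 := by norm_num
    exact h9
  have h8 : (((p7 : ℕ) : ℝ))⁻¹ = 1 / 7 := by
    have : (p7 : ℕ) = 7 := rfl
    rw [this]
    norm_num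
  rw [norm_neg, ← h7, h, h8]

theorem small_int (z : E7 ℚ) (h1 : ∀ p : Nat.Primes, ‖((z.re : ℚ) : ℚ_[p])‖ ≤ 1 ∧
    ‖((z.im : ℚ) : ℚ_[p])‖ ≤ 1) (h2 : |(z.re : ℝ)| < 1 ∧ |(z.im : ℝ)| < 1) : z = 0 := by
  obtain ⟨m, hm⟩ := rat_int fun p => (h1 p).1
  obtain ⟨n, hn⟩ := rat_int fun p => (h1 p).2
  obtain ⟨h3, h4⟩ := h2
  rw [hm] at h3
  rw [hn] at h4
  have h5 : |m| < 1 := by exact_mod_cast h3
  have h6 : |n| < 1 := by exact_mod_cast h4
  rw [Int.abs_lt_one_iff] at h5 h6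
  ext
  · rw [hm, h5]
    simp
  · rw [hn, h6]
    simp

theorem small_nhds : {z : E7 ℝ | |z.re| < 1 ∧ |z.im| < 1} ∈ 𝓝 (0 : E7 ℝ) := by
  refine IsOpen.mem_nhds ?_ ?_
  · exact (isOpen_lt (E7.continuous_re.abs) continuous_const).inter
      (isOpen_lt (E7.continuous_im.abs) continuous_const)
  · constructor <;> simp

/-- The integral elements at a prime. -/
noncomputable def intS (p : Nat.Primes) : NonUnitalSubring (E7 ℚ_[p]) where
  carrier := {z | ‖z.re‖ ≤ 1 ∧ ‖z.im‖ ≤ 1}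
  mul_mem' := by
    rintro a b ⟨ha, ha'⟩ ⟨hb, hb'⟩
    constructor
    · rw [QuadraticAlgebra.re_mul]
      exact na _ _ (ml ha hb) (ml (ml n7 ha') hb')
    · rw [QuadraticAlgebra.im_mul, zero_mul, zero_mul, add_zero]
      exact na _ _ (ml ha hb') (ml ha' hb)
  add_mem' := by
    rintro a b ⟨ha, ha'⟩ ⟨hb, hb'⟩
    exact ⟨na _ _ ha hb, na _ _ ha' hb'⟩
  zero_mem' := by
    exact ⟨by rw [QuadraticAlgebra.re_zero, norm_zero]; norm_num,
      by rw [QuadraticAlgebra.im_zero, norm_zero]; norm_num⟩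
  neg_mem' := by
    rintro a ⟨ha, ha'⟩
    constructor
    · rw [QuadraticAlgebra.re_neg, norm_neg]
      exact ha
    · rw [QuadraticAlgebra.im_neg, norm_neg]
      exact ha'

/-- The elements `P + Q √-7` with `P` divisible by seven. -/
noncomputable def jS : NonUnitalSubring (E7 ℚ_[p7]) where
  carrier := {z | ‖z.re‖ ≤ 1 / 7 ∧ ‖z.im‖ ≤ 1}
  mul_mem' := by
    rintro a b ⟨ha, ha'⟩ ⟨hb, hb'⟩
    have h17 : (1 / 7 : ℝ) ≤ 1 := by norm_num
    constructor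
    · rw [QuadraticAlgebra.re_mul]
      exact na _ _ (ml ha (hb.trans h17)) (ml (ml n77 ha') hb')
    · rw [QuadraticAlgebra.im_mul, zero_mul, zero_mul, add_zero]
      exact na _ _ (ml (ha.trans h17) hb') (ml ha' (hb.trans h17))
  add_mem' := by
    rintro a b ⟨ha, ha'⟩ ⟨hb, hb'⟩
    exact ⟨na _ _ ha hb, na _ _ ha' hb'⟩
  zero_mem' := by
    exact ⟨by rw [QuadraticAlgebra.re_zero, norm_zero]; norm_num,
      by rw [QuadraticAlgebra.im_zero, norm_zero]; norm_num⟩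
  neg_mem' := by
    rintro a ⟨ha, ha'⟩
    constructor
    · rw [QuadraticAlgebra.re_neg, norm_neg]
      exact ha
    · rw [QuadraticAlgebra.im_neg, norm_neg]
      exact ha'

private theorem one_int {p : Nat.Primes} (i j : Fin 7) :
    ‖((1 : Matrix (Fin 7) (Fin 7) (E7 ℚ_[p])) i j).re‖ ≤ 1 ∧
      ‖((1 : Matrix (Fin 7) (Fin 7) (E7 ℚ_[p])) i j).im‖ ≤ 1 := by
  by_cases h : i = j
  · subst h
    rw [Matrix.one_apply_eq, QuadraticAlgebra.re_one, QuadraticAlgebra.im_one, norm_one,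
      norm_zero]
    exact ⟨le_rfl, zero_le_one⟩
  · rw [Matrix.one_apply_ne h, QuadraticAlgebra.re_zero, QuadraticAlgebra.im_zero, norm_zero]
    exact ⟨zero_le_one, zero_le_one⟩

theorem mem_KZ_iff {p : Nat.Primes} (g : U7 ℚ_[p]) :
    g ∈ KZ p ↔ ∀ i j, (g.mat - 1) i j ∈ intS p := by
  have key : ∀ i j, (‖(g.mat i j).re‖ ≤ 1 ∧ ‖(g.mat i j).im‖ ≤ 1) ↔
      (g.mat - 1) i j ∈ intS p := by
    intro i j
    have h1 : (1 : Matrix (Fin 7) (Fin 7) (E7 ℚ_[p])) i j ∈ intS p := one_int i j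
    have h2 : g.mat i j ∈ intS p ↔ (g.mat - 1) i j ∈ intS p := by
      rw [Matrix.sub_apply]
      constructor
      · intro h
        exact sub_mem h h1
      · intro h
        have h3 := add_mem h h1
        rwa [sub_add_cancel] at h3
    exact h2
  exact forall_congr' fun i => forall_congr' fun j => key i j

theorem mem_JJ_iff (g : U7 ℚ_[p7]) : g ∈ JJ ↔ ∀ i j, (g.mat - 1) i j ∈ jS := by
  constructor
  · rintro ⟨h1, h2⟩ i j
    exact ⟨h2 i j, ((mem_KZ_iff g).1 h1 i j).2⟩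
  · intro h
    refine ⟨(mem_KZ_iff g).2 fun i j => ⟨(h i j).1.trans (by norm_num), (h i j).2⟩, ?_⟩
    exact fun i j => (h i j).1

end Pool.Agent.MPabcfcd
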