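import Pool.Agent.Lib.MP_abcfcd_nt.R.LUc
import Pool.Agent.Lib.MP_abcfcd_nt.R.Int
import Pool.Agent.Lib.MP_abcfcd_nt.L.LL

/-!
# Isolation of one double coset

PROOF. Let `γ` be the image of `δ ∈ U7 ℚ`, `g = v₁ γ v₂⁻¹`, so `γ = v₁⁻¹ g v₂` with `v₁⁻¹` lower
unipotent
and `v₂` upper unipotent (`lo_of_V2`, `up_of_V1`, over `AQ`). By `minor_mul` the leading minors of
the
matrices of `γ` and `g` agree (the inverses are in the same groups). Let `d = ldm δ.mat k - 1 ∈ E7
ℚ`. At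
every prime it is `ldm` of an integral matrix minus `1` (the components of `g` are in `KZ p`, since
`finP g ∈ LL`; `ldm` commutes with ring homomorphisms), so integral; at infinity it is
`ldm (g_∞) - 1`, which is small if `g_∞` is near `1` (continuity of `ldm`). So `d = 0` by
`small_int`
(here the neighbourhood `U₀` of `1` in `U7 ℝ` is chosen such that all
`ldm (g_∞) k - 1` are in the set of `small_nhds`). By `exists_LU` over `E7 ℚ`: `δ.mat = L U`; by
`LU_unitary` `δ = a b` in `U7 ℚ`. Let `a', b'` be the images in `U7 AQ`. `g = (v₁ a') (b' v₂⁻¹)` is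
a
product of a lower and an upper unipotent matrix. By `LU_mem` with `intS p` (at every prime) the
entries of
`v₁ a' - 1` and `b' v₂⁻¹ - 1` are integral at all primes, and by `LU_small` they are small at
infinity if
`g_∞` is near `1`. The entries `(j+1, j)` of `v₁ a'` are those of `a'` (`sub_mul_V2`), rational, so
they
vanish by `small_int`, and `a' ∈ t2.V` by `V2_iff`. The entries `(i, j)`, `2 ≤ i < j ≤ 4`, of `b'
v₂⁻¹` are
those of `b'` (`mid_mul_V1`), so they vanish and `b' ∈ t1.V` by `V1_iff`.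
-/

set_option autoImplicit false

open Matrix MeasureTheory Topology
open scoped ENNReal NNReal ComplexConjugate RestrictedProduct

namespace Pool.Agent.MPabcfcd

private theorem iso_key {z : E7 ℚ} {w : E7 AQ} (h : w = E7.map ratAQ z)
    (h1 : ∀ p : Nat.Primes, E7.map (evp p) w ∈ intS p)
    (h2 : E7.map infAQ w ∈ {z : E7 ℝ | |z.re| < 1 ∧ |z.im| < 1}) : z = 0 := by
  subst h
  exact small_int z (fun p => h1 p) h2

/-- The integral elements at a prime, as a subring. -/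
private noncomputable def isoR (p : Nat.Primes) : Subring (E7 ℚ_[p]) :=
  { intS p with
    one_mem' := by
      refine ⟨?_, ?_⟩
      · rw [QuadraticAlgebra.re_one]
        exact norm_one.le
      · rw [QuadraticAlgebra.im_one, norm_zero]
        exact zero_le_one }

private theorem iso_mem {p : Nat.Primes} {z : E7 ℚ_[p]} : z ∈ isoR p ↔ z ∈ intS p := Iff.rfl

private theorem ldm_map {R S : Type} [CommRing R] [CommRing S] (f : R →+* S) {n : ℕ}
    (M : Matrix (Fin n) (Fin n) R) (k : ℕ) (hk : k ≤ n) :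
    ldm (M.map f) k hk = f (ldm M k hk) := by
  unfold ldm
  rw [RingHom.map_det]
  rfl

private theorem ldm_mem {R : Type} [CommRing R] (S : Subring R) {n : ℕ}
    {M : Matrix (Fin n) (Fin n) R} (h : ∀ i j, M i j ∈ S) (k : ℕ) (hk : k ≤ n) :
    ldm M k hk ∈ S := by
  have h1 : M = Matrix.map (Matrix.of fun i j => (⟨M i j, h i j⟩ : S)) S.subtype := by
    ext i j
    rfl
  rw [h1, ldm_map]
  exact Subtype.coe_prop _

private theorem ldm_one {R : Type} [CommRing R] {n : ℕ} (k : ℕ) (hk : k ≤ n) :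
    ldm (1 : Matrix (Fin n) (Fin n) R) k hk = 1 := by
  unfold ldm
  rw [Matrix.submatrix_one _ (Fin.castLE_injective hk), Matrix.det_one]

private theorem IsLo.map' {R S : Type} [CommRing R] [CommRing S] (f : R →+* S) {n : ℕ}
    {M : Matrix (Fin n) (Fin n) R} (h : IsLo M) : IsLo (M.map f) := by
  refine ⟨fun i => ?_, fun i j hij => ?_⟩
  · rw [Matrix.map_apply, h.1, map_one]
  · rw [Matrix.map_apply, h.2 i j hij, map_zero]

private theorem IsUp.map' {R S : Type} [CommRing R] [CommRing S] (f : R →+* S) {n : ℕ}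
    {M : Matrix (Fin n) (Fin n) R} (h : IsUp M) : IsUp (M.map f) := by
  refine ⟨fun i => ?_, fun i j hij => ?_⟩
  · rw [Matrix.map_apply, h.1, map_one]
  · rw [Matrix.map_apply, h.2 i j hij, map_zero]

private theorem iso_nhds1 {N : Set (E7 ℝ)} (hN : N ∈ 𝓝 (0 : E7 ℝ)) :
    {g : U7 ℝ | ∀ (k : ℕ) (hk : k ≤ 7), ldm g.mat k hk - 1 ∈ N} ∈ 𝓝 (1 : U7 ℝ) := by
  have h1 : ∀ k : Fin 8, ∀ᶠ g in 𝓝 (1 : U7 ℝ), ldm g.mat k (Nat.lt_succ_iff.1 k.2) - 1 ∈ N := by
    intro k
    have hc : Continuous fun g : U7 ℝ => ldm g.mat k (Nat.lt_succ_iff.1 k.2) - 1 := by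
      unfold ldm
      exact ((U7.continuous_mat.matrix_submatrix _ _).matrix_det).sub continuous_const
    have h2 := hc.tendsto (1 : U7 ℝ)
    rw [U7.mat_one, ldm_one, sub_self] at h2
    exact h2 hN
  have h3 := Filter.eventually_all.2 h1
  filter_upwards [h3] with g hg k hk
  exact hg ⟨k, Nat.lt_succ_iff.2 hk⟩

private theorem iso_nhds2 {N : Set (E7 ℝ)} (hN : N ∈ 𝓝 (0 : E7 ℝ)) :
    {g : U7 ℝ | ∀ i j, (g.mat - 1) i j ∈ N} ∈ 𝓝 (1 : U7 ℝ) := by
  have h1 : ∀ p : Fin 7 × Fin 7, ∀ᶠ g in 𝓝 (1 : U7 ℝ), (g.mat - 1) p.1 p.2 ∈ N := by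
    intro p
    have hc : Continuous fun g : U7 ℝ => (g.mat - 1) p.1 p.2 :=
      (U7.continuous_mat.sub continuous_const).matrix_elem p.1 p.2
    have h2 := hc.tendsto (1 : U7 ℝ)
    rw [U7.mat_one, sub_self, Matrix.zero_apply] at h2
    exact h2 hN
  have h3 := Filter.eventually_all.2 h1
  filter_upwards [h3] with g hg i j
  exact hg (i, j)

theorem iso : ∃ U₀ ∈ 𝓝 (1 : U7 ℝ), ∀ v1 ∈ t2.V, ∀ v2 ∈ t1.V, ∀ γ ∈ Gam,
    U7.map infAQ (v1 * γ * v2⁻¹) ∈ U₀ → finP (v1 * γ * v2⁻¹) ∈ LL →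
      ∃ a ∈ t2.V, ∃ b ∈ t1.V, a ∈ Gam ∧ b ∈ Gam ∧ γ = a * b := by
  obtain ⟨N', hN', hsm⟩ := LU_small (R := E7 ℝ) (n := 7) small_nhds
  refine ⟨_, Filter.inter_mem (iso_nhds1 small_nhds) (iso_nhds2 hN'), ?_⟩
  rintro v1 hv1 v2 hv2 γ ⟨δ, rfl⟩ ⟨hU1, hU2⟩ hL
  set g : U7 AQ := v1 * U7.map ratAQ δ * v2⁻¹ with hg
  have hv2' : v2⁻¹ ∈ t1.V := t1.V.inv_mem hv2
  have hlo : IsLo v1.mat := lo_of_V2 ratAQ hv1
  have hup : IsUp (v2⁻¹).mat := up_of_V1 ratAQ hv2'
  have hKZ : ∀ p, U7.map (evp p) g ∈ KZ p := fun p => by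
    have := hL.2.1 p
    rwa [evp_finP] at this
  have hint : ∀ p i j, ((U7.map (evp p) g).mat - 1) i j ∈ intS p := fun p =>
    (mem_KZ_iff _).1 (hKZ p)
  -- the leading minors
  have hmin : ∀ k (hk : k ≤ 7), ldm δ.mat k hk = 1 := by
    intro k hk
    have h1 : ldm g.mat k hk = E7.map ratAQ (ldm δ.mat k hk) := by
      rw [← ldm_map]
      exact minor_mul hlo hup _ k hk
    refine sub_eq_zero.1 (iso_key (w := ldm g.mat k hk - 1) ?_ ?_ ?_)
    · rw [h1, map_sub, map_one]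
    · intro p
      rw [map_sub, map_one, ← ldm_map]
      refine iso_mem.1 ((isoR p).sub_mem (ldm_mem _ (fun i j => ?_) k hk) (isoR p).one_mem)
      exact iso_mem.2 (hKZ p i j)
    · rw [map_sub, map_one, ← ldm_map]
      exact hU1 k hk
  obtain ⟨L, U, hLo, hUp, hLU⟩ := exists_LU δ.mat hmin
  obtain ⟨a, b, ha, hb, hab⟩ := LU_unitary δ hLo hUp hLU
  have halo : IsLo (U7.map ratAQ a).mat := by
    rw [U7.mat_map, ha]
    exact hLo.map' _
  have hbup : IsUp (U7.map ratAQ b).mat := by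
    rw [U7.mat_map, hb]
    exact hUp.map' _
  have h2 : g.mat = (v1 * U7.map ratAQ a).mat * (U7.map ratAQ b * v2⁻¹).mat := by
    rw [← U7.mat_mul, hg, hab, map_mul]
    congr 1
    group
  have hl : IsLo (v1 * U7.map ratAQ a).mat := hlo.mul halo
  have hu : IsUp (U7.map ratAQ b * v2⁻¹).mat := hbup.mul hup
  have hfin : ∀ p i j, (((v1 * U7.map ratAQ a).mat.map (E7.map (evp p))) - 1) i j ∈ intS p ∧
      (((U7.map ratAQ b * v2⁻¹).mat.map (E7.map (evp p))) - 1) i j ∈ intS p := by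
    intro p
    refine LU_mem (intS p) (hl.map' _) (hu.map' _) ?_
    rw [← Matrix.map_mul, ← h2]
    exact hint p
  have hinf : ∀ i j, (((v1 * U7.map ratAQ a).mat.map (E7.map infAQ)) - 1) i j ∈
      {z : E7 ℝ | |z.re| < 1 ∧ |z.im| < 1} ∧
      (((U7.map ratAQ b * v2⁻¹).mat.map (E7.map infAQ)) - 1) i j ∈
      {z : E7 ℝ | |z.re| < 1 ∧ |z.im| < 1} := by
    refine hsm _ _ (hl.map' _) (hu.map' _) ?_
    rw [← Matrix.map_mul, ← h2]
    exact hU2
  refine ⟨U7.map ratAQ a, ?_, U7.map ratAQ b, ?_, ⟨a, rfl⟩, ⟨b, rfl⟩, by rw [hab, map_mul]⟩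
  · refine (V2_iff ratAQ halo).2 fun i j hij => ?_
    have hne : i ≠ j := fun h => by rw [h] at hij; omega
    have h3 : (v1 * U7.map ratAQ a).mat i j = (U7.map ratAQ a).mat i j :=
      sub_mul_V2 ratAQ hv1 halo hij
    have h4 : (U7.map ratAQ a).mat i j = E7.map ratAQ (a.mat i j) := rfl
    rw [h4, iso_key (h3.trans h4), map_zero]
    · intro p
      have h5 := (hfin p i j).1
      rwa [Matrix.sub_apply, Matrix.one_apply_ne hne, sub_zero] at h5
    · have h5 := (hinf i j).1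
      rwa [Matrix.sub_apply, Matrix.one_apply_ne hne, sub_zero] at h5
  · refine (V1_iff ratAQ hbup).2 fun i j hi hij hj => ?_
    have hne : i ≠ j := hij.ne
    have h3 : (U7.map ratAQ b * v2⁻¹).mat i j = (U7.map ratAQ b).mat i j :=
      mid_mul_V1 ratAQ hv2' hbup hi hij hj
    have h4 : (U7.map ratAQ b).mat i j = E7.map ratAQ (b.mat i j) := rfl
    rw [h4, iso_key (h3.trans h4), map_zero]
    · intro p
      have h5 := (hfin p i j).2
      rwa [Matrix.sub_apply, Matrix.one_apply_ne hne, sub_zero] at h5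
    · have h5 := (hinf i j).2
      rwa [Matrix.sub_apply, Matrix.one_apply_ne hne, sub_zero] at h5

end Pool.Agent.MPabcfcd
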