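import Pool.Agent.Lib.MP_abcfcd_nt.R.LUc
import Pool.Agent.Lib.MP_abcfcd_nt.R.Int
import Pool.Agent.Lib.MP_abcfcd_nt.L.LL
import Pool.Agent.Lib.MP_abcfcd_nt.N.Psi

/-!
# Positivity of the main term

PROOF. Let `g = v₁ v₂⁻¹`, `u = v₂⁻¹ ∈ t1.V`: `g = v₁ u`, lower times upper unipotent. By `LU_mem`
at the
primes with `intS p` and at seven with `jS`, the components of `v₁` and `u` are in `KZ p` and, at
seven, in `JJ`; so `finP v₁, finP u ∈ LL` and `chi (finP g) = chi (finP v₁) chi (finP u)`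
(`chi_mul`, `finP_mul`). `t.ch v = psi x`, `x = (tr (X (v - 1))).re ∈ AQ`; the components of `x` at
the
primes different from seven are integral (`int_X`; the component of the trace at `p` is the trace
of the
images, compare `evp`, `mapM`), so by `psi_split` `t.ch v = e(x_∞) psi (at7 x_7)`, and by
`compat1`, `compat2` `x_7 = - trB / 7`, so `psi (at7 x_7) = chi (finP v)`. Hence
`chi (finP g)⁻¹ * ch v₁ * conj (ch v₂) = e(x_∞) e(x'_∞)` where `conj (ch v₂) = ch v₂⁻¹ = ch u` (as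
`psi` is a homomorphism: `ch_mul`-type computation, or directly: `t1.ch v₂ * t1.ch u = 1`; the
trace of
`X (v₂ - 1)(u - 1)` vanishes). By `LU_small` the entries of `v₁ - 1` and `u - 1` at infinity are
small,
so `x_∞` and `x'_∞` are small and the real part of `e(x_∞ + x'_∞)` is at least `1/2`.
-/

set_option autoImplicit false

open Matrix MeasureTheory Topology
open scoped ENNReal NNReal ComplexConjugate RestrictedProduct

namespace Pool.Agent.MPabcfcd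

section comp

variable {R S : Type} [CommRing R] [CommRing S]

private theorem pos_map_map (f : R →+* S) (g : ℚ →+* R) (X : M7 (E7 ℚ)) :
    (mapM g X).map (E7.map f) = mapM (f.comp g) X := rfl

private theorem pos_map_sub_one (f : R →+* S) (v : U7 R) :
    (v.mat - 1).map (E7.map f) = (U7.map f v).mat - 1 := by
  refine Matrix.ext fun i j => ?_
  rw [Matrix.map_apply, Matrix.sub_apply, Matrix.sub_apply, map_sub, U7.mat_map, Matrix.map_apply]
  congr 1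
  by_cases h : i = j
  · subst h
    rw [Matrix.one_apply_eq, Matrix.one_apply_eq, map_one]
  · rw [Matrix.one_apply_ne h, Matrix.one_apply_ne h, map_zero]

private theorem pos_trace (f : R →+* S) (g : ℚ →+* R) (X : M7 (E7 ℚ)) (v : U7 R) :
    f (Matrix.trace (mapM g X * (v.mat - 1))).re =
      (Matrix.trace (mapM (f.comp g) X * ((U7.map f v).mat - 1))).re := by
  rw [← pos_map_map, ← pos_map_sub_one, ← Matrix.map_mul, ← E7.map_re]
  congr 1
  simp only [Matrix.trace, Matrix.diag_apply, Matrix.map_apply, map_sum]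

private theorem pos_V1 (f : R →+* S) (g : ℚ →+* R) {v : U7 R}
    (h : v ∈ uni (mapM g t1.h) (t1.sk_h.map g)) :
    U7.map f v ∈ uni (mapM (f.comp g) t1.h) (t1.sk_h.map (f.comp g)) := by
  rw [mem_V1] at h ⊢
  intro i j hij
  rw [← pos_map_sub_one, Matrix.map_apply, h i j hij, map_zero]

private theorem pos_V2 (f : R →+* S) (g : ℚ →+* R) {v : U7 R}
    (h : v ∈ uni (mapM g t2.h) (t2.sk_h.map g)) :
    U7.map f v ∈ uni (mapM (f.comp g) t2.h) (t2.sk_h.map (f.comp g)) := by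
  rw [mem_V2] at h ⊢
  intro i j hij
  rw [← pos_map_sub_one, Matrix.map_apply, h i j hij, map_zero]

end comp

private theorem pos_evp (p : Nat.Primes) : (evp p).comp ratAQ = Rat.castHom ℚ_[p] :=
  Subsingleton.elim _ _

private theorem pos_inf : infAQ.comp ratAQ = Rat.castHom ℝ := Subsingleton.elim _ _

private theorem pos_int {v : U7 AQ} (h : finP v ∈ LL) (p : Nat.Primes) :
    ∀ i j, ‖(((U7.map (evp p) v).mat - 1) i j).re‖ ≤ 1 ∧
      ‖(((U7.map (evp p) v).mat - 1) i j).im‖ ≤ 1 := by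
  have h1 := h.2.1 p
  rw [evp_finP, mem_KZ_iff] at h1
  exact h1

/-- the character of an element with integral components -/
private theorem pos_ch (t : Sl2) {v : U7 AQ}
    (h1 : ∀ p : Nat.Primes, p ≠ p7 → ‖(Matrix.trace (mapM (Rat.castHom ℚ_[p]) t.X *
      ((U7.map (evp p) v).mat - 1))).re‖ ≤ 1)
    (h2 : (Matrix.trace (mapM (Rat.castHom ℚ_[p7]) t.X *
      ((U7.map (evp p7) v).mat - 1))).re + trB (U7.map (evp p7) v) / 7 = 0) :
    t.ch v = Real.fourierChar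
      (Matrix.trace (mapM (Rat.castHom ℝ) t.X * ((U7.map infAQ v).mat - 1))).re *
        chi (finP v) := by
  have hx : ∀ p : Nat.Primes, (Matrix.trace (mapM ratAQ t.X * (v.mat - 1))).re.2 p =
      (Matrix.trace (mapM (Rat.castHom ℚ_[p]) t.X * ((U7.map (evp p) v).mat - 1))).re := by
    intro p
    have h3 := pos_trace (evp p) ratAQ t.X v
    rw [pos_evp] at h3
    exact h3
  have hi : (Matrix.trace (mapM ratAQ t.X * (v.mat - 1))).re.1 =
      (Matrix.trace (mapM (Rat.castHom ℝ) t.X * ((U7.map infAQ v).mat - 1))).re := by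
    have h3 := pos_trace infAQ ratAQ t.X v
    rw [pos_inf] at h3
    exact h3
  unfold Sl2.ch chi
  rw [psi_split (fun p hp => by rw [hx p]; exact h1 p hp), hi, hx p7, evp_finP,
    eq_neg_of_add_eq_zero_left h2, neg_div]

theorem ch_fin1 {v : U7 AQ} (hv : v ∈ t1.V) (h : finP v ∈ LL) :
    t1.ch v = Real.fourierChar
      (Matrix.trace (mapM (Rat.castHom ℝ) t1.X * ((U7.map infAQ v).mat - 1))).re *
        chi (finP v) := by
  refine pos_ch t1 (fun p hp => (int_X hp _ (pos_int h p)).1) (compat1 _ ?_)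
  have h1 := pos_V1 (evp p7) ratAQ hv
  simp only [pos_evp] at h1
  exact h1

theorem ch_fin2 {v : U7 AQ} (hv : v ∈ t2.V) (h : finP v ∈ LL) :
    t2.ch v = Real.fourierChar
      (Matrix.trace (mapM (Rat.castHom ℝ) t2.X * ((U7.map infAQ v).mat - 1))).re *
        chi (finP v) := by
  refine pos_ch t2 (fun p hp => (int_X hp _ (pos_int h p)).2) (compat2 _ ?_)
  have h1 := pos_V2 (evp p7) ratAQ hv
  simp only [pos_evp] at h1
  exact h1

theorem fin_LL {v u : U7 AQ} (hv : v ∈ t2.V) (hu : u ∈ t1.V) (h : finP (v * u) ∈ LL) :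
    finP v ∈ LL ∧ finP u ∈ LL := by
  have hlo : ∀ p : Nat.Primes, IsLo (U7.map (evp p) v).mat := fun p =>
    lo_of_V2 _ (pos_V2 (evp p) ratAQ hv)
  have hup : ∀ p : Nat.Primes, IsUp (U7.map (evp p) u).mat := fun p =>
    up_of_V1 _ (pos_V1 (evp p) ratAQ hu)
  have hK : ∀ p : Nat.Primes, U7.map (evp p) v ∈ KZ p ∧ U7.map (evp p) u ∈ KZ p := by
    intro p
    have h1 := h.2.1 p
    rw [evp_finP, mem_KZ_iff, map_mul, U7.mat_mul] at h1
    have h2 := LU_mem (intS p) (hlo p) (hup p) h1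
    exact ⟨(mem_KZ_iff _).2 fun i j => (h2 i j).1, (mem_KZ_iff _).2 fun i j => (h2 i j).2⟩
  have hJ : U7.map (evp p7) v ∈ JJ ∧ U7.map (evp p7) u ∈ JJ := by
    have h1 := h.2.2
    rw [evp_finP, mem_JJ_iff, map_mul, U7.mat_mul] at h1
    have h2 := LU_mem jS (hlo p7) (hup p7) h1
    exact ⟨(mem_JJ_iff _).2 fun i j => (h2 i j).1, (mem_JJ_iff _).2 fun i j => (h2 i j).2⟩
  refine ⟨⟨inf_finP v, fun p => ?_, ?_⟩, ⟨inf_finP u, fun p => ?_, ?_⟩⟩
  · rw [evp_finP]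
    exact (hK p).1
  · rw [evp_finP]
    exact hJ.1
  · rw [evp_finP]
    exact (hK p).2
  · rw [evp_finP]
    exact hJ.2

private theorem pos_nhds0 {V : Set (Fin 7 → Fin 7 → E7 ℝ)}
    (hV : V ∈ 𝓝 (0 : Fin 7 → Fin 7 → E7 ℝ)) :
    ∃ N ∈ 𝓝 (0 : E7 ℝ), ∀ T : Fin 7 → Fin 7 → E7 ℝ, (∀ i j, T i j ∈ N) → T ∈ V := by
  rw [nhds_pi, Filter.mem_pi'] at hV
  obtain ⟨I, t, ht, hI⟩ := hV
  have h1 : ∀ i, ∃ N ∈ 𝓝 (0 : E7 ℝ), ∀ T : Fin 7 → E7 ℝ, (∀ j, T j ∈ N) → T ∈ t i := by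
    intro i
    have h2 := ht i
    rw [Pi.zero_apply, nhds_pi, Filter.mem_pi'] at h2
    obtain ⟨J, s, hs, hJ⟩ := h2
    exact ⟨⋂ j, s j, Filter.iInter_mem.2 hs, fun T hT => hJ fun j _ => Set.mem_iInter.1 (hT j) j⟩
  choose N hN hNt using h1
  exact ⟨⋂ i, N i, Filter.iInter_mem.2 hN, fun T hT => hI fun i _ =>
    hNt i (T i) fun j => Set.mem_iInter.1 (hT i j) i⟩

/-- neighbourhoods of zero in the space of matrices -/
private theorem pos_nhds {V : Set (M7 (E7 ℝ))} (hV : V ∈ 𝓝 (0 : M7 (E7 ℝ))) :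
    ∃ N ∈ 𝓝 (0 : E7 ℝ), ∀ T : M7 (E7 ℝ), (∀ i j, T i j ∈ N) → T ∈ V :=
  pos_nhds0 hV

private theorem pos_nhds1 {N : Set (E7 ℝ)} (hN : N ∈ 𝓝 (0 : E7 ℝ)) :
    {g : U7 ℝ | ∀ i j, (g.mat - 1) i j ∈ N} ∈ 𝓝 (1 : U7 ℝ) := by
  have h1 : ∀ i j : Fin 7, ∀ᶠ g : U7 ℝ in 𝓝 1, (g.mat - 1) i j ∈ N := by
    intro i j
    have hc : Continuous fun g : U7 ℝ => (g.mat - 1) i j :=
      (U7.continuous_mat.sub continuous_const).matrix_elem i j
    have h2 : ((1 : U7 ℝ).mat - 1) i j = 0 := by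
      rw [U7.mat_one, sub_self]
      rfl
    have h4 : N ∈ 𝓝 (((1 : U7 ℝ).mat - 1) i j) := h2.symm ▸ hN
    exact (hc.tendsto 1) h4
  exact Filter.eventually_all.2 fun i => Filter.eventually_all.2 fun j => h1 i j

private theorem pos_cont (X : M7 (E7 ℝ)) :
    {T : M7 (E7 ℝ) | |(Matrix.trace (X * T)).re| < 1 / 12} ∈ 𝓝 (0 : M7 (E7 ℝ)) := by
  have hc : Continuous fun T : M7 (E7 ℝ) => |(Matrix.trace (X * T)).re| :=
    (E7.continuous_re.comp (continuous_const.matrix_mul continuous_id).matrix_trace).abs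
  refine (isOpen_lt hc continuous_const).mem_nhds ?_
  change |(Matrix.trace (X * 0)).re| < 1 / 12
  rw [mul_zero, Matrix.trace_zero, QuadraticAlgebra.re_zero, abs_zero]
  norm_num

private theorem pos_cont' (X : M7 (E7 ℝ)) :
    {T : M7 (E7 ℝ) | |(Matrix.trace (X * (J7 (E7 ℝ) * Tᴴ * J7 (E7 ℝ)))).re| < 1 / 12} ∈
      𝓝 (0 : M7 (E7 ℝ)) := by
  have hc : Continuous fun T : M7 (E7 ℝ) =>
      |(Matrix.trace (X * (J7 (E7 ℝ) * Tᴴ * J7 (E7 ℝ)))).re| :=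
    (E7.continuous_re.comp (continuous_const.matrix_mul ((continuous_const.matrix_mul
      continuous_id.matrix_conjTranspose).matrix_mul continuous_const)).matrix_trace).abs
  refine (isOpen_lt hc continuous_const).mem_nhds ?_
  change |(Matrix.trace (X * (J7 (E7 ℝ) * 0ᴴ * J7 (E7 ℝ)))).re| < 1 / 12
  rw [Matrix.conjTranspose_zero, mul_zero, zero_mul, mul_zero, Matrix.trace_zero,
    QuadraticAlgebra.re_zero, abs_zero]
  norm_num

private theorem pos_inv (g : U7 ℝ) :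
    g.mat - 1 = J7 (E7 ℝ) * ((g⁻¹).mat - 1)ᴴ * J7 (E7 ℝ) := by
  have h : ((g⁻¹)⁻¹).mat - 1 = J7 (E7 ℝ) * ((g⁻¹).mat - 1)ᴴ * J7 (E7 ℝ) := by
    rw [U7.mat_inv, Matrix.conjTranspose_sub, Matrix.conjTranspose_one, mul_sub, sub_mul,
      mul_one, J7_sq]
  rwa [inv_inv] at h

private theorem pos_grp {G : Type*} [CommGroup G] (a b e1 e2 : G) :
    (a * b)⁻¹ * (e1 * a) * (e2 * b⁻¹)⁻¹ = e1 / e2 := by
  rw [div_eq_mul_inv, mul_inv, mul_inv, inv_inv]
  calc a⁻¹ * b⁻¹ * (e1 * a) * (e2⁻¹ * b) = (a⁻¹ * a) * (b⁻¹ * b) * (e1 * e2⁻¹) := by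
        ac_rfl
    _ = e1 * e2⁻¹ := by rw [inv_mul_cancel, inv_mul_cancel, one_mul, one_mul]

private theorem pos_cos {x : ℝ} (h : |x| ≤ 1 / 6) :
    1 / 2 ≤ ((Real.fourierChar x : Circle) : ℂ).re := by
  rw [Real.fourierChar_apply, Complex.exp_ofReal_mul_I_re, ← Real.cos_abs, ← Real.cos_pi_div_three]
  refine Real.cos_le_cos_of_nonneg_of_le_pi (abs_nonneg _) (by linarith [Real.pi_pos]) ?_
  rw [abs_mul, abs_of_pos (by positivity : 0 < 2 * Real.pi)]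
  nlinarith [Real.pi_pos]

theorem pos : ∃ U₀ ∈ 𝓝 (1 : U7 ℝ), ∀ v1 ∈ t2.V, ∀ v2 ∈ t1.V,
    U7.map infAQ (v1 * v2⁻¹) ∈ U₀ → finP (v1 * v2⁻¹) ∈ LL →
      1 / 2 ≤ (((chi (finP (v1 * v2⁻¹)) : Circle) : ℂ)⁻¹ * (t2.ch v1 : ℂ) *
        conj (t1.ch v2 : ℂ)).re := by
  obtain ⟨N2, hN2, hV2⟩ := pos_nhds (pos_cont (mapM (Rat.castHom ℝ) t2.X))
  obtain ⟨N1, hN1, hV1⟩ := pos_nhds (pos_cont' (mapM (Rat.castHom ℝ) t1.X))
  obtain ⟨N', hN', hLU⟩ := LU_small (R := E7 ℝ) (n := 7) (Filter.inter_mem hN1 hN2)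
  refine ⟨_, pos_nhds1 hN', ?_⟩
  intro v1 hv1 v2 hv2 hinf hfin
  have hu : v2⁻¹ ∈ t1.V := t1.V.inv_mem hv2
  obtain ⟨h1, h2⟩ := fin_LL hv1 hu hfin
  have h3 : finP v2 = (finP v2⁻¹)⁻¹ := by rw [finP_inv, inv_inv]
  have h4 : finP v2 ∈ LL := by
    rw [h3]
    exact inv_mem_LL h2
  have hsm := hLU (U7.map infAQ v1).mat (U7.map infAQ v2⁻¹).mat
    (lo_of_V2 _ (pos_V2 infAQ ratAQ hv1)) (up_of_V1 _ (pos_V1 infAQ ratAQ hu)) (by
      rw [← U7.mat_mul, ← map_mul]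
      exact hinf)
  have hx1 := hV2 ((U7.map infAQ v1).mat - 1) fun i j => (hsm i j).1.2
  have hx2 := hV1 ((U7.map infAQ v2⁻¹).mat - 1) fun i j => (hsm i j).2.1
  change |(Matrix.trace (mapM (Rat.castHom ℝ) t2.X * ((U7.map infAQ v1).mat - 1))).re| < 1 / 12
    at hx1
  change |(Matrix.trace (mapM (Rat.castHom ℝ) t1.X * (J7 (E7 ℝ) *
    ((U7.map infAQ v2⁻¹).mat - 1)ᴴ * J7 (E7 ℝ)))).re| < 1 / 12 at hx2
  rw [map_inv, ← pos_inv] at hx2
  have hc : chi (finP (v1 * v2⁻¹)) = chi (finP v1) * chi (finP v2⁻¹) := by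
    rw [finP_mul, chi_mul h1 h2]
  have hc2 : chi (finP v2) = (chi (finP v2⁻¹))⁻¹ := by rw [h3, chi_inv h2]
  have key : (chi (finP (v1 * v2⁻¹)))⁻¹ * t2.ch v1 * (t1.ch v2)⁻¹ = Real.fourierChar
      ((Matrix.trace (mapM (Rat.castHom ℝ) t2.X * ((U7.map infAQ v1).mat - 1))).re -
      (Matrix.trace (mapM (Rat.castHom ℝ) t1.X * ((U7.map infAQ v2).mat - 1))).re) := by
    rw [ch_fin2 hv1 h1, ch_fin1 hv2 h4, hc, hc2, AddChar.map_sub_eq_div]
    exact pos_grp _ _ _ _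
  have key2 : ((chi (finP (v1 * v2⁻¹)) : Circle) : ℂ)⁻¹ * (t2.ch v1 : ℂ) *
      conj (t1.ch v2 : ℂ) =
      (((chi (finP (v1 * v2⁻¹)))⁻¹ * t2.ch v1 * (t1.ch v2)⁻¹ : Circle) : ℂ) := by
    rw [Circle.coe_mul, Circle.coe_mul, Circle.coe_inv, Circle.coe_inv_eq_conj]
  rw [key2, key]
  refine pos_cos ?_
  rw [abs_le]
  have h5 := abs_lt.1 hx1
  have h6 := abs_lt.1 hx2
  constructor <;> linarith [h5.1, h5.2, h6.1, h6.2]

end Pool.Agent.MPabcfcd
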