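import Pool.Agent.Lib.MP_abcfcd_nt.R.Iso
import Pool.Agent.Lib.MP_abcfcd_nt.R.Pos
import Pool.Agent.Lib.MP_abcfcd_nt.L.Bump
import Pool.Agent.Lib.MP_abcfcd_nt.N.Cyc

/-!
# Positivity of the kernel on the product of the two periods

PROOF. Let `y₁ = mk v₁`, `y₂ = mk v₂`. By `qj_mk`, `qw_mk`, `ker_mk` the expression is
`∑_γ bump b (v₁ γ v₂⁻¹) * ch v₁ * conj (ch v₂)` (a finite sum: `ker_fin`; `re` commutes with it, or
all
terms have nonnegative real part and the sum is summable). If the term of `γ` is not zero then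
`finP (v₁ γ v₂⁻¹) ∈ LL` and `b (..) ≠ 0`, so the component at infinity is in `U₀` (the intersection
of the
two neighbourhoods of `iso` and `pos`). By `iso` `γ = a c` with `a ∈ t2.V`, `c ∈ t1.V`, both in
`Gam`. Put
`v₁' = v₁ a`, `v₂' = v₂ c⁻¹`: then `v₁ γ v₂⁻¹ = v₁' v₂'⁻¹`, `ch v₁' = ch v₁`, `ch v₂' = ch v₂`
(`ch_mul`, `ch_gam`). The term is `b(..) (chi (finP (v₁' v₂'⁻¹)))⁻¹ ch v₁' conj (ch v₂')`, with
real part
at least `b(..) / 2 ≥ 0`. `ker_base`: for `v₁ = v₂ = 1` the term of `γ = 1` is `b 1 = 1`, so the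
real
part of the sum is at least `1`.
-/

set_option autoImplicit false

open Matrix MeasureTheory Topology
open scoped ENNReal NNReal ComplexConjugate RestrictedProduct

namespace Pool.Agent.MPabcfcd

private theorem bump_pos (b : U7 ℝ → ℝ) {g : U7 AQ} (h : finP g ∈ LL) :
    bump b g = (b (U7.map infAQ g) : ℂ) * ((chi (finP g) : Circle) : ℂ)⁻¹ := by
  unfold bump
  rw [if_pos h]

private theorem bump_neg (b : U7 ℝ → ℝ) {g : U7 AQ} (h : finP g ∉ LL) : bump b g = 0 := by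
  unfold bump
  rw [if_neg h]

/-- Every term of the sum has nonnegative real part. -/
private theorem term_nonneg {U1 U2 : Set (U7 ℝ)}
    (hiso : ∀ v1 ∈ t2.V, ∀ v2 ∈ t1.V, ∀ γ ∈ Gam,
      U7.map infAQ (v1 * γ * v2⁻¹) ∈ U1 → finP (v1 * γ * v2⁻¹) ∈ LL →
        ∃ a ∈ t2.V, ∃ b ∈ t1.V, a ∈ Gam ∧ b ∈ Gam ∧ γ = a * b)
    (hpos : ∀ v1 ∈ t2.V, ∀ v2 ∈ t1.V,
      U7.map infAQ (v1 * v2⁻¹) ∈ U2 → finP (v1 * v2⁻¹) ∈ LL →
        1 / 2 ≤ (((chi (finP (v1 * v2⁻¹)) : Circle) : ℂ)⁻¹ * (t2.ch v1 : ℂ) *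
          conj (t1.ch v2 : ℂ)).re)
    {b : U7 ℝ → ℝ} (hb0 : ∀ g, 0 ≤ b g) (hbU : ∀ g, b g ≠ 0 → g ∈ U1 ∩ U2)
    {v1 v2 γ : U7 AQ} (hv1 : v1 ∈ t2.V) (hv2 : v2 ∈ t1.V) (hγ : γ ∈ Gam) :
    0 ≤ (bump b (v1 * γ * v2⁻¹) * (t2.ch v1 : ℂ) * conj (t1.ch v2 : ℂ)).re := by
  by_cases hL : finP (v1 * γ * v2⁻¹) ∈ LL
  · rw [bump_pos b hL]
    by_cases hz : b (U7.map infAQ (v1 * γ * v2⁻¹)) = 0
    · rw [hz, Complex.ofReal_zero, zero_mul, zero_mul, zero_mul, Complex.zero_re]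
    · have hU := hbU _ hz
      obtain ⟨a, ha, c, hc, haG, hcG, hac⟩ := hiso v1 hv1 v2 hv2 γ hγ hU.1 hL
      have e1 : v1 * γ * v2⁻¹ = (v1 * a) * (v2 * c⁻¹)⁻¹ := by
        rw [hac]
        group
      have hc' : c⁻¹ ∈ t1.V := t1.V.inv_mem hc
      have hcG' : c⁻¹ ∈ Gam := Gam.inv_mem hcG
      have e2 : t2.ch (v1 * a) = t2.ch v1 := by
        rw [ch_mul t2 hv1 ha, ch_gam t2 haG, mul_one]
      have e3 : t1.ch (v2 * c⁻¹) = t1.ch v2 := by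
        rw [ch_mul t1 hv2 hc', ch_gam t1 hcG', mul_one]
      rw [e1] at hU hL
      have h := hpos (v1 * a) (t2.V.mul_mem hv1 ha) (v2 * c⁻¹) (t1.V.mul_mem hv2 hc') hU.2 hL
      rw [e1]
      rw [e2, e3] at h
      rw [mul_assoc, mul_assoc, Complex.re_ofReal_mul, ← mul_assoc]
      exact mul_nonneg (hb0 _) (le_trans (by norm_num) h)
  · rw [bump_neg b hL, zero_mul, zero_mul, Complex.zero_re]

/-- The expression is a sum of finitely many terms. -/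
private theorem ker_sum {b : U7 ℝ → ℝ} (hbc : HasCompactSupport b) (v1 v2 : U7 AQ) (z w : ℂ) :
    (Summable fun γ : Gam => (bump b (v1 * (γ : U7 AQ) * v2⁻¹) * z * w).re) ∧
    (Har.ker Gam (bump b) (QuotientGroup.mk v1) (QuotientGroup.mk v2) * z * w).re =
      ∑' γ : Gam, (bump b (v1 * (γ : U7 AQ) * v2⁻¹) * z * w).re := by
  have hfin : {γ : Gam | ∃ g ∈ ({v1} : Set (U7 AQ)), ∃ g' ∈ ({v2} : Set (U7 AQ)),
      bump b (g * (γ : U7 AQ) * g'⁻¹) ≠ 0}.Finite :=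
    Har.ker_fin dis_Gam (supp_bump hbc) isCompact_singleton isCompact_singleton
  have hs : Summable fun γ : Gam => bump b (v1 * (γ : U7 AQ) * v2⁻¹) * z * w := by
    refine summable_of_hasFiniteSupport (hfin.subset ?_)
    intro γ hγ
    refine ⟨v1, rfl, v2, rfl, fun h => hγ ?_⟩
    show bump b (v1 * (γ : U7 AQ) * v2⁻¹) * z * w = 0
    rw [h, zero_mul, zero_mul]
  refine ⟨(Complex.hasSum_re hs.hasSum).summable, ?_⟩
  rw [Har.ker_mk, ← tsum_mul_right, ← tsum_mul_right]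
  exact (Complex.hasSum_re hs.hasSum).tsum_eq.symm

theorem exists_U : ∃ U₀ ∈ 𝓝 (1 : U7 ℝ), ∀ b : U7 ℝ → ℝ, Continuous b → HasCompactSupport b →
    (∀ g, 0 ≤ b g) → (∀ g, b g ≠ 0 → g ∈ U₀) → b 1 = 1 →
    ∀ (ν1 : Measure (t1.V ⧸ t1.VQ)) (ν2 : Measure (t2.V ⧸ t2.VQ)) (h1 : InvProb ν1)
      (h2 : InvProb ν2),
      (∀ y2 y1, 0 ≤ (Har.ker Gam (bump b) ((t2.cyc ν2 h2).j y2) ((t1.cyc ν1 h1).j y1) *
        (t2.cyc ν2 h2).w y2 * conj ((t1.cyc ν1 h1).w y1)).re) ∧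
      ∃ y2 y1, 0 < (Har.ker Gam (bump b) ((t2.cyc ν2 h2).j y2) ((t1.cyc ν1 h1).j y1) *
        (t2.cyc ν2 h2).w y2 * conj ((t1.cyc ν1 h1).w y1)).re := by
  obtain ⟨U1, hU1, hiso⟩ := iso
  obtain ⟨U2, hU2, hpos⟩ := pos
  refine ⟨U1 ∩ U2, Filter.inter_mem hU1 hU2, fun b _ hbc hb0 hbU hb1 ν1 ν2 h1 h2 => ⟨?_, ?_⟩⟩
  · intro y2 y1
    obtain ⟨v1, rfl⟩ := QuotientGroup.mk_surjective y2
    obtain ⟨v2, rfl⟩ := QuotientGroup.mk_surjective y1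
    show 0 ≤ (Har.ker Gam (bump b) (t2.qj (QuotientGroup.mk v1)) (t1.qj (QuotientGroup.mk v2)) *
      t2.qw (QuotientGroup.mk v1) * conj (t1.qw (QuotientGroup.mk v2))).re
    rw [qj_mk, qj_mk, qw_mk, qw_mk, (ker_sum hbc _ _ _ _).2]
    exact tsum_nonneg fun γ => term_nonneg hiso hpos hb0 hbU v1.2 v2.2 γ.2
  · refine ⟨(QuotientGroup.mk 1 : t2.V ⧸ t2.VQ), (QuotientGroup.mk 1 : t1.V ⧸ t1.VQ), ?_⟩
    show 0 < (Har.ker Gam (bump b) (t2.qj (QuotientGroup.mk 1)) (t1.qj (QuotientGroup.mk 1)) *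
      t2.qw (QuotientGroup.mk 1) * conj (t1.qw (QuotientGroup.mk 1))).re
    rw [qj_mk, qj_mk, qw_mk, qw_mk]
    obtain ⟨hs, he⟩ := ker_sum hbc ((1 : t2.V) : U7 AQ) ((1 : t1.V) : U7 AQ)
      ((t2.ch ((1 : t2.V) : U7 AQ) : Circle) : ℂ) (conj ((t1.ch ((1 : t1.V) : U7 AQ) : Circle) : ℂ))
    rw [he]
    refine lt_of_lt_of_le ?_ (hs.le_tsum (1 : Gam) fun γ _ =>
      term_nonneg hiso hpos hb0 hbU (1 : t2.V).2 (1 : t1.V).2 γ.2)
    have e1 : ((1 : t2.V) : U7 AQ) * ((1 : Gam) : U7 AQ) * (((1 : t1.V) : U7 AQ))⁻¹ = 1 := by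
      rw [Subgroup.coe_one, Subgroup.coe_one, Subgroup.coe_one, inv_one, mul_one, mul_one]
    have e2 : finP (1 : U7 AQ) = 1 := finP_of_inf (map_one _)
    have e3 : finP (1 : U7 AQ) ∈ LL := by
      rw [e2]
      exact one_mem_LL
    have e4 : t2.ch ((1 : t2.V) : U7 AQ) = 1 := ch_gam t2 Gam.one_mem
    have e5 : t1.ch ((1 : t1.V) : U7 AQ) = 1 := ch_gam t1 Gam.one_mem
    rw [e1, e4, e5, bump_pos b e3, e2, chi_one, map_one, hb1, Circle.coe_one, inv_one, mul_one,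
      mul_one, map_one, mul_one, Complex.ofReal_one, Complex.one_re]
    exact one_pos

end Pool.Agent.MPabcfcd
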