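import Mathlib

/-!
# `LU` decompositions with unipotent factors: existence

PROOF. `exists_LU`: induction on `n`; `M` of size `n + 1` has the blocks `A` (`n × n`, the rows and
columns `castSucc`), the last column `b`, the last row `c` and the corner `d`. All leading minors of
`A` are leading minors of `M`, so `A = L' U'`. `L'` and `U'` have determinant `1`, hence are
invertible.
Let `L` have the blocks `L'`, `0`, `c U'⁻¹`, `1` and `U` the blocks `U'`, `L'⁻¹ b`, `0`,
`s = d - c U'⁻¹ L'⁻¹ b`. Then `L U = M` and `1 = det M = det L det U = s`. `minor_mul`: for a lower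
unipotent `L` the first `k` rows of `L M` are `L_k` (the leading `k × k` block of `L`) times the
first `k`
rows of `M`: the leading `k × k` block of `L M U` is `L_k M_k U_k`, and `det L_k = det U_k = 1`
(`Matrix.det_of_lowerTriangular`).
-/

set_option autoImplicit false

open Matrix MeasureTheory Topology
open scoped ENNReal NNReal ComplexConjugate RestrictedProduct

namespace Pool.Agent.MPabcfcd

variable {R : Type} [CommRing R] {n : ℕ}

/-- Lower unipotent matrices. -/
def IsLo (M : Matrix (Fin n) (Fin n) R) : Prop := (∀ i, M i i = 1) ∧ ∀ i j, i < j → M i j = 0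

/-- Upper unipotent matrices. -/
def IsUp (M : Matrix (Fin n) (Fin n) R) : Prop := (∀ i, M i i = 1) ∧ ∀ i j, j < i → M i j = 0

/-- The leading minors. -/
def ldm (M : Matrix (Fin n) (Fin n) R) (k : ℕ) (hk : k ≤ n) : R :=
  (M.submatrix (Fin.castLE hk) (Fin.castLE hk)).det

private theorem LUa_det_lo {L : Matrix (Fin n) (Fin n) R} (hL : IsLo L) : L.det = 1 := by
  rw [Matrix.det_of_isLowerTriangular L (fun i j hij => hL.2 i j hij)]
  exact Finset.prod_eq_one fun i _ => hL.1 i

private theorem LUa_det_up {U : Matrix (Fin n) (Fin n) R} (hU : IsUp U) : U.det = 1 := by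
  rw [Matrix.det_of_isUpperTriangular (M := U) (fun i j hij => hU.2 i j hij)]
  exact Finset.prod_eq_one fun i _ => hU.1 i

private theorem LUa_step (M : Matrix (Fin (n + 1)) (Fin (n + 1)) R)
    (L' U' : Matrix (Fin n) (Fin n) R) (hL' : IsLo L') (hU' : IsUp U')
    (hA : M.submatrix Fin.castSucc Fin.castSucc = L' * U') (hdet : M.det = 1) :
    ∃ L U, IsLo L ∧ IsUp U ∧ M = L * U := by
  have hdL : IsUnit L'.det := by rw [LUa_det_lo hL']; exact isUnit_one
  have hdU : IsUnit U'.det := by rw [LUa_det_up hU']; exact isUnit_one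
  set b : Fin n → R := fun i => M i.castSucc (Fin.last n) with hb
  set c : Fin n → R := fun j => M (Fin.last n) j.castSucc with hc
  set y : Fin n → R := c ᵥ* U'⁻¹ with hy
  set z : Fin n → R := L'⁻¹ *ᵥ b with hz
  set s : R := M (Fin.last n) (Fin.last n) - y ⬝ᵥ z with hs
  have hyU : y ᵥ* U' = c := by
    rw [hy, Matrix.vecMul_vecMul, Matrix.nonsing_inv_mul _ hdU, Matrix.vecMul_one]
  have hLz : L' *ᵥ z = b := by
    rw [hz, Matrix.mulVec_mulVec, Matrix.mul_nonsing_inv _ hdL, Matrix.one_mulVec]
  let L : Matrix (Fin (n + 1)) (Fin (n + 1)) R := fun i j =>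
    Fin.lastCases (motive := fun _ => R)
      (Fin.lastCases (motive := fun _ => R) 1 (fun j => y j) j)
      (fun i => Fin.lastCases (motive := fun _ => R) 0 (fun j => L' i j) j) i
  let U : Matrix (Fin (n + 1)) (Fin (n + 1)) R := fun i j =>
    Fin.lastCases (motive := fun _ => R)
      (Fin.lastCases (motive := fun _ => R) s (fun _ => 0) j)
      (fun i => Fin.lastCases (motive := fun _ => R) (z i) (fun j => U' i j) j) i
  have L1 : L (Fin.last n) (Fin.last n) = 1 := by simp [L]
  have L2 : ∀ j : Fin n, L (Fin.last n) j.castSucc = y j := by intro j; simp [L]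
  have L3 : ∀ i : Fin n, L i.castSucc (Fin.last n) = 0 := by intro i; simp [L]
  have L4 : ∀ i j : Fin n, L i.castSucc j.castSucc = L' i j := by intro i j; simp [L]
  have U1 : U (Fin.last n) (Fin.last n) = s := by simp [U]
  have U2 : ∀ j : Fin n, U (Fin.last n) j.castSucc = 0 := by intro j; simp [U]
  have U3 : ∀ i : Fin n, U i.castSucc (Fin.last n) = z i := by intro i; simp [U]
  have U4 : ∀ i j : Fin n, U i.castSucc j.castSucc = U' i j := by intro i j; simp [U]
  have hM : M = L * U := by
    ext i j
    rw [Matrix.mul_apply, Fin.sum_univ_castSucc]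
    induction i using Fin.lastCases with
    | last =>
      induction j using Fin.lastCases with
      | last =>
        simp only [L1, L2, U1, U3, one_mul]
        rw [hs]
        simp only [dotProduct]
        ring
      | cast j =>
        simp only [L1, L2, U2, U4, mul_zero, add_zero]
        exact (congrFun hyU j).symm
    | cast i =>
      induction j using Fin.lastCases with
      | last =>
        simp only [L3, L4, U1, U3, zero_mul, add_zero]
        exact (congrFun hLz i).symm
      | cast j =>
        simp only [L3, L4, U2, U4, zero_mul, add_zero]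
        have h1 := congrFun (congrFun hA i) j
        rw [Matrix.submatrix_apply, Matrix.mul_apply] at h1
        exact h1
  have hL : IsLo L := by
    constructor
    · intro i
      induction i using Fin.lastCases with
      | last => exact L1
      | cast i => rw [L4]; exact hL'.1 i
    · intro i j hij
      induction i using Fin.lastCases with
      | last => exact absurd (Fin.le_last j) (not_le.2 hij)
      | cast i =>
        induction j using Fin.lastCases with
        | last => exact L3 i
        | cast j => rw [L4]; exact hL'.2 i j (Fin.castSucc_lt_castSucc_iff.1 hij)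
  have hUt : ∀ i j, j < i → U i j = 0 := by
    intro i j hij
    induction i using Fin.lastCases with
    | last =>
      induction j using Fin.lastCases with
      | last => exact absurd hij (lt_irrefl _)
      | cast j => exact U2 j
    | cast i =>
      induction j using Fin.lastCases with
      | last => exact absurd (Fin.le_last i.castSucc) (not_le.2 hij)
      | cast j => rw [U4]; exact hU'.2 i j (Fin.castSucc_lt_castSucc_iff.1 hij)
  have hsd : s = 1 := by
    have h1 : M.det = L.det * U.det := by rw [hM, Matrix.det_mul]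
    rw [hdet, LUa_det_lo hL, one_mul,
      Matrix.det_of_isUpperTriangular (M := U) (fun i j hij => hUt i j hij),
      Fin.prod_univ_castSucc, U1, Finset.prod_eq_one fun i _ => by rw [U4]; exact hU'.1 i,
      one_mul] at h1
    exact h1.symm
  refine ⟨L, U, hL, ⟨fun i => ?_, hUt⟩, hM⟩
  induction i using Fin.lastCases with
  | last => rw [U1, hsd]
  | cast i => rw [U4]; exact hU'.1 i

theorem exists_LU (M : Matrix (Fin n) (Fin n) R) (h : ∀ k (hk : k ≤ n), ldm M k hk = 1) :
    ∃ L U, IsLo L ∧ IsUp U ∧ M = L * U := by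
  induction n with
  | zero =>
    exact ⟨M, 1, ⟨fun i => i.elim0, fun i => i.elim0⟩, ⟨fun i => i.elim0, fun i => i.elim0⟩,
      (Matrix.mul_one M).symm⟩
  | succ n ih =>
    obtain ⟨L', U', hL', hU', hA⟩ := ih (M.submatrix Fin.castSucc Fin.castSucc)
      (fun k hk => h k (hk.trans (Nat.le_succ n)))
    refine LUa_step M L' U' hL' hU' hA ?_
    exact h (n + 1) le_rfl

private theorem LUa_sum (k : ℕ) (hk : k ≤ n) (f : Fin n → R)
    (hf : ∀ a : Fin n, k ≤ (a : ℕ) → f a = 0) :
    ∑ a, f a = ∑ a : Fin k, f (Fin.castLE hk a) := by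
  symm
  refine Fintype.sum_of_injective (Fin.castLE hk) (Fin.castLE_injective hk) _ _ ?_ fun _ => rfl
  intro a ha
  refine hf a (not_lt.1 fun h1 => ha ⟨⟨a, h1⟩, Fin.ext rfl⟩)

theorem minor_mul {L U : Matrix (Fin n) (Fin n) R} (hL : IsLo L) (hU : IsUp U)
    (M : Matrix (Fin n) (Fin n) R) (k : ℕ) (hk : k ≤ n) : ldm (L * M * U) k hk = ldm M k hk := by
  have h1 : (L * M * U).submatrix (Fin.castLE hk) (Fin.castLE hk) =
      L.submatrix (Fin.castLE hk) (Fin.castLE hk) * M.submatrix (Fin.castLE hk) (Fin.castLE hk) *
      U.submatrix (Fin.castLE hk) (Fin.castLE hk) := by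
    ext i j
    rw [Matrix.submatrix_apply, Matrix.mul_apply, Matrix.mul_apply, LUa_sum k hk]
    · refine Finset.sum_congr rfl fun b _ => ?_
      rw [Matrix.mul_apply, Matrix.mul_apply, LUa_sum k hk]
      · rfl
      · intro a ha
        rw [hL.2 (Fin.castLE hk i) a (Fin.lt_def.2 (lt_of_lt_of_le i.2 ha)), zero_mul]
    · intro b hb
      rw [hU.2 b (Fin.castLE hk j) (Fin.lt_def.2 (lt_of_lt_of_le j.2 hb)), mul_zero]
  have h2 : IsLo (L.submatrix (Fin.castLE hk) (Fin.castLE hk)) :=
    ⟨fun i => hL.1 _, fun i j hij => hL.2 _ _ hij⟩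
  have h3 : IsUp (U.submatrix (Fin.castLE hk) (Fin.castLE hk)) :=
    ⟨fun i => hU.1 _, fun i j hij => hU.2 _ _ hij⟩
  unfold ldm
  rw [h1, Matrix.det_mul, Matrix.det_mul, LUa_det_lo h2, LUa_det_up h3, one_mul, mul_one]

end Pool.Agent.MPabcfcd
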