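import Pool.Agent.Lib.MP_abcfcd_nt.R.LUa

/-!
# `LU` decompositions with unipotent factors: uniqueness, integrality, continuity

PROOF. `IsLo.mul`, `IsUp.mul`: direct. `IsLo.inv`: a lower unipotent matrix is invertible (`det =
1`)
and its inverse is lower unipotent (e.g. `L = 1 - N` with a strictly lower triangular `N`, `N^n =
0`,
`L⁻¹ = ∑ N^j`; or solve the triangular system). `LU_unique`: `L₂⁻¹ L₁ = U₂ U₁⁻¹` is lower and upper
unipotent, hence `1`. Entries: if `M = L U` then
`U i j = M i j - ∑_{k < i} L i k U k j` for `i ≤ j` and `L i j = M i j - ∑_{k < j} L i k U k j` for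
`i > j`.
`LU_mem`: let `S` be a nonunital subring containing the entries of `M - 1`. By induction on `min i
j` the
entries of `L - 1` and `U - 1` are in `S`: for `i ≤ j`: `(U - 1) i j = (M - 1) i j -
∑_{k<i} (L-1) i k (U-1) k j` (for `k < i ≤ j` the entries `L i k`, `U k j` are off-diagonal). The
same
for `L`. `LU_small`: the same induction: for a topological ring, for every neighbourhood `N` of `0`
there
is a neighbourhood `N'` of `0` such that entries of `M - 1` in `N'` imply entries of `L - 1`, `U -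
1` in
`N` (the entries are polynomials without constant term, given by the recursion; or induct on
`min i j` with neighbourhoods depending on the step).
-/

set_option autoImplicit false

open Matrix MeasureTheory Topology
open scoped ENNReal NNReal ComplexConjugate RestrictedProduct

namespace Pool.Agent.MPabcfcd

variable {R : Type} [CommRing R] {n : ℕ}

theorem IsLo.mul {L L' : Matrix (Fin n) (Fin n) R} (h : IsLo L) (h' : IsLo L') :
    IsLo (L * L') := by
  refine ⟨fun i => ?_, fun i j hij => ?_⟩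
  · rw [Matrix.mul_apply, Finset.sum_eq_single i]
    · rw [h.1, h'.1, one_mul]
    · intro k _ hk
      rcases lt_or_gt_of_ne hk with h1 | h1
      · rw [h'.2 k i h1, mul_zero]
      · rw [h.2 i k h1, zero_mul]
    · intro h1
      exact absurd (Finset.mem_univ _) h1
  · rw [Matrix.mul_apply]
    refine Finset.sum_eq_zero fun k _ => ?_
    rcases lt_or_ge i k with h1 | h1
    · rw [h.2 i k h1, zero_mul]
    · rw [h'.2 k j (lt_of_le_of_lt h1 hij), mul_zero]

theorem IsUp.mul {U U' : Matrix (Fin n) (Fin n) R} (h : IsUp U) (h' : IsUp U') :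
    IsUp (U * U') := by
  refine ⟨fun i => ?_, fun i j hij => ?_⟩
  · rw [Matrix.mul_apply, Finset.sum_eq_single i]
    · rw [h.1, h'.1, one_mul]
    · intro k _ hk
      rcases lt_or_gt_of_ne hk with h1 | h1
      · rw [h.2 i k h1, zero_mul]
      · rw [h'.2 k i h1, mul_zero]
    · intro h1
      exact absurd (Finset.mem_univ _) h1
  · rw [Matrix.mul_apply]
    refine Finset.sum_eq_zero fun k _ => ?_
    rcases lt_or_ge k i with h1 | h1
    · rw [h.2 i k h1, zero_mul]
    · rw [h'.2 k j (lt_of_lt_of_le hij h1), mul_zero]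

private theorem IsUp.tr {U : Matrix (Fin n) (Fin n) R} (h : IsUp U) : IsLo Uᵀ :=
  ⟨fun i => h.1 i, fun i j hij => h.2 j i hij⟩

private theorem IsLo.tr {U : Matrix (Fin n) (Fin n) R} (h : IsLo U) : IsUp Uᵀ :=
  ⟨fun i => h.1 i, fun i j hij => h.2 j i hij⟩

theorem IsUp.exists_inv {U : Matrix (Fin n) (Fin n) R} (h : IsUp U) :
    ∃ U', IsUp U' ∧ U' * U = 1 ∧ U * U' = 1 := by
  have hb : U.BlockTriangular id := fun i j hij => h.2 i j hij
  have hd : U.det = 1 := by
    rw [Matrix.det_of_isUpperTriangular hb]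
    exact Finset.prod_eq_one fun i _ => h.1 i
  have hu : IsUnit U.det := by rw [hd]; exact isUnit_one
  let _ := Matrix.invertibleOfIsUnitDet U hu
  have hbi : U⁻¹.BlockTriangular id := Matrix.blockTriangular_inv_of_blockTriangular hb
  have h1 : U * U⁻¹ = 1 := Matrix.mul_nonsing_inv U hu
  refine ⟨U⁻¹, ⟨fun i => ?_, fun i j hij => hbi hij⟩, Matrix.nonsing_inv_mul U hu, h1⟩
  have h2 := congrFun (congrFun h1 i) i
  rw [Matrix.mul_apply, Finset.sum_eq_single i, h.1, one_mul, Matrix.one_apply_eq] at h2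
  · exact h2
  · intro k _ hk
    rcases lt_or_gt_of_ne hk with h3 | h3
    · rw [h.2 i k h3, zero_mul]
    · have h4 : U⁻¹ k i = 0 := hbi h3
      rw [h4, mul_zero]
  · intro h3
    exact absurd (Finset.mem_univ _) h3

theorem IsLo.exists_inv {L : Matrix (Fin n) (Fin n) R} (h : IsLo L) :
    ∃ L', IsLo L' ∧ L' * L = 1 ∧ L * L' = 1 := by
  obtain ⟨U', hU', h1, h2⟩ := h.tr.exists_inv
  refine ⟨U'ᵀ, hU'.tr, ?_, ?_⟩
  · have h3 := congrArg Matrix.transpose h2
    rwa [Matrix.transpose_mul, Matrix.transpose_transpose, Matrix.transpose_one] at h3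
  · have h3 := congrArg Matrix.transpose h1
    rwa [Matrix.transpose_mul, Matrix.transpose_transpose, Matrix.transpose_one] at h3

theorem LU_unique {L L' U U' : Matrix (Fin n) (Fin n) R} (hL : IsLo L) (hL' : IsLo L')
    (hU : IsUp U) (hU' : IsUp U') (h : L * U = L' * U') : L = L' ∧ U = U' := by
  obtain ⟨A, hA, hA1, hA2⟩ := hL'.exists_inv
  obtain ⟨B, hB, hB1, hB2⟩ := hU.exists_inv
  have h1 : A * L = U' * B := by
    calc A * L = A * L * (U * B) := by rw [hB2, Matrix.mul_one]
      _ = A * (L * U) * B := by simp only [Matrix.mul_assoc]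
      _ = (A * L') * U' * B := by rw [h]; simp only [Matrix.mul_assoc]
      _ = U' * B := by rw [hA1, Matrix.one_mul]
  have h2 : A * L = 1 := by
    have hl := hA.mul hL
    have hu := hU'.mul hB
    rw [← h1] at hu
    refine Matrix.ext fun i j => ?_
    rcases lt_trichotomy i j with h3 | h3 | h3
    · rw [hl.2 i j h3, Matrix.one_apply_ne h3.ne]
    · subst h3
      rw [hl.1, Matrix.one_apply_eq]
    · rw [hu.2 i j h3, Matrix.one_apply_ne h3.ne']
  have h3 : L = L' := by
    calc L = L' * A * L := by rw [hA2, Matrix.one_mul]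
      _ = L' := by rw [Matrix.mul_assoc, h2, Matrix.mul_one]
  refine ⟨h3, ?_⟩
  have h4 : U' * B = 1 := h1.symm.trans h2
  calc U = U' * B * U := by rw [h4, Matrix.one_mul]
    _ = U' := by rw [Matrix.mul_assoc, hB1, Matrix.mul_one]

private theorem LU_rec (L U : Matrix (Fin n) (Fin n) R) (i j : Fin n) :
    (L - 1) i j + (U - 1) i j = (L * U - 1) i j - ∑ k, (L - 1) i k * (U - 1) k j := by
  have h : (L - 1) + (U - 1) = (L * U - 1) - (L - 1) * (U - 1) := by noncomm_ring
  have h2 := congrFun (congrFun h i) j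
  rw [Matrix.add_apply, Matrix.sub_apply (L * U - 1), Matrix.mul_apply] at h2
  exact h2

private theorem LU_X {L : Matrix (Fin n) (Fin n) R} (hL : IsLo L) {i j : Fin n} (h : i ≤ j) :
    (L - 1) i j = 0 := by
  rw [Matrix.sub_apply]
  rcases h.lt_or_eq with h1 | h1
  · rw [hL.2 i j h1, Matrix.one_apply_ne h1.ne, sub_zero]
  · subst h1
    rw [hL.1, Matrix.one_apply_eq, sub_self]

private theorem LU_Y {U : Matrix (Fin n) (Fin n) R} (hU : IsUp U) {i j : Fin n} (h : j ≤ i) :
    (U - 1) i j = 0 := by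
  rw [Matrix.sub_apply]
  rcases h.lt_or_eq with h1 | h1
  · rw [hU.2 i j h1, Matrix.one_apply_ne h1.ne', sub_zero]
  · subst h1
    rw [hU.1, Matrix.one_apply_eq, sub_self]

theorem LU_mem (S : NonUnitalSubring R) {L U : Matrix (Fin n) (Fin n) R} (hL : IsLo L)
    (hU : IsUp U) (h : ∀ i j, (L * U - 1) i j ∈ S) :
    ∀ i j, (L - 1) i j ∈ S ∧ (U - 1) i j ∈ S := by
  have key : ∀ k : ℕ, ∀ i j : Fin n, ((i : ℕ) < k ∨ (j : ℕ) < k) →
      (L - 1) i j ∈ S ∧ (U - 1) i j ∈ S := by
    intro k
    induction k with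
    | zero => intro i j hk; omega
    | succ k ih =>
      intro i j hk
      have hs : ∑ m, (L - 1) i m * (U - 1) m j ∈ S := by
        refine sum_mem fun m _ => ?_
        rcases le_or_gt i m with h1 | h1
        · rw [LU_X hL h1, zero_mul]
          exact S.zero_mem
        · rcases le_or_gt j m with h2 | h2
          · rw [LU_Y hU h2, mul_zero]
            exact S.zero_mem
          · have h3 : (m : ℕ) < k := by
              rw [Fin.lt_def] at h1 h2
              omega
            exact S.mul_mem (ih i m (Or.inr h3)).1 (ih m j (Or.inl h3)).2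
      have hr : (L - 1) i j + (U - 1) i j ∈ S := by
        rw [LU_rec]
        exact S.sub_mem (h i j) hs
      rcases le_total i j with h1 | h1
      · rw [LU_X hL h1, zero_add] at hr
        rw [LU_X hL h1]
        exact ⟨S.zero_mem, hr⟩
      · rw [LU_Y hU h1, add_zero] at hr
        rw [LU_Y hU h1]
        exact ⟨hr, S.zero_mem⟩
  exact fun i j => key (i + 1) i j (Or.inl (Nat.lt_succ_self _))

theorem LU_small [TopologicalSpace R] [IsTopologicalRing R] {N : Set R} (hN : N ∈ 𝓝 (0 : R)) :
    ∃ N' ∈ 𝓝 (0 : R), ∀ L U : Matrix (Fin n) (Fin n) R, IsLo L → IsUp U →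
      (∀ i j, (L * U - 1) i j ∈ N') → ∀ i j, (L - 1) i j ∈ N ∧ (U - 1) i j ∈ N := by
  have key : ∀ k : ℕ, ∀ N : Set R, N ∈ 𝓝 (0 : R) → ∃ N' ∈ 𝓝 (0 : R),
      ∀ L U : Matrix (Fin n) (Fin n) R, IsLo L → IsUp U →
      (∀ i j, (L * U - 1) i j ∈ N') → ∀ i j : Fin n, ((i : ℕ) < k ∨ (j : ℕ) < k) →
      (L - 1) i j ∈ N ∧ (U - 1) i j ∈ N := by
    intro k
    induction k with
    | zero =>
      intro N hN
      exact ⟨N, hN, fun L U _ _ _ i j hk => absurd hk (by omega)⟩
    | succ k ih =>
      intro N hN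
      -- the recursion is continuous
      have hc : Continuous fun p : R × (Fin n → R) × (Fin n → R) =>
          p.1 - ∑ m, p.2.1 m * p.2.2 m := by fun_prop
      have h1 : (fun p : R × (Fin n → R) × (Fin n → R) => p.1 - ∑ m, p.2.1 m * p.2.2 m) ⁻¹' N
          ∈ 𝓝 (0 : R × (Fin n → R) × (Fin n → R)) := by
        exact hc.continuousAt.preimage_mem_nhds (by simpa using hN)
      rw [show (0 : R × (Fin n → R) × (Fin n → R)) = (0, 0, 0) from rfl, nhds_prod_eq,
        nhds_prod_eq, Filter.mem_prod_iff] at h1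
      obtain ⟨A, hA, T, hT, hAT⟩ := h1
      obtain ⟨B, hB, C, hC, hBC⟩ := Filter.mem_prod_iff.1 hT
      rw [nhds_pi, Filter.mem_pi] at hB hC
      obtain ⟨I1, _, B', hB', hB''⟩ := hB
      obtain ⟨I2, _, C', hC', hC''⟩ := hC
      have hN1 : N ∩ ((⋂ m, B' m) ∩ ⋂ m, C' m) ∈ 𝓝 (0 : R) := by
        refine Filter.inter_mem hN (Filter.inter_mem ?_ ?_)
        · exact Filter.iInter_mem.2 fun m => hB' m
        · exact Filter.iInter_mem.2 fun m => hC' m
      obtain ⟨N', hN', hk'⟩ := ih _ hN1
      refine ⟨N' ∩ A, Filter.inter_mem hN' hA, fun L U hL hU hLU i j hk => ?_⟩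
      have h2 := hk' L U hL hU fun i j => (hLU i j).1
      have z := mem_of_mem_nhds hN
      have hx : ∀ m, m < i → m < j → (L - 1) i m ∈ N ∩ ((⋂ m, B' m) ∩ ⋂ m, C' m) ∧
          (U - 1) m j ∈ N ∩ ((⋂ m, B' m) ∩ ⋂ m, C' m) := by
        intro m h3 h4
        have h5 : (m : ℕ) < k := by
          rw [Fin.lt_def] at h3 h4
          omega
        exact ⟨(h2 i m (Or.inr h5)).1, (h2 m j (Or.inl h5)).2⟩
      have hr : (L - 1) i j + (U - 1) i j ∈ N := by
        rw [LU_rec]
        have h6 : (fun m => if m < i ∧ m < j then (L - 1) i m else 0) ∈ B := by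
          refine hB'' fun m _ => ?_
          by_cases h7 : m < i ∧ m < j
          · simp only [if_pos h7]
            exact Set.mem_iInter.1 (hx m h7.1 h7.2).1.2.1 m
          · simp only [if_neg h7]
            exact mem_of_mem_nhds (hB' m)
        have h8 : (fun m => if m < i ∧ m < j then (U - 1) m j else 0) ∈ C := by
          refine hC'' fun m _ => ?_
          by_cases h7 : m < i ∧ m < j
          · simp only [if_pos h7]
            exact Set.mem_iInter.1 (hx m h7.1 h7.2).2.2.2 m
          · simp only [if_neg h7]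
            exact mem_of_mem_nhds (hC' m)
        have h9 : ((L * U - 1) i j, (fun m => if m < i ∧ m < j then (L - 1) i m else 0),
            fun m => if m < i ∧ m < j then (U - 1) m j else 0) ∈ A ×ˢ T :=
          ⟨(hLU i j).2, hBC ⟨h6, h8⟩⟩
        have h10 := hAT h9
        have h11 : ∑ m, (L - 1) i m * (U - 1) m j =
            ∑ m, (if m < i ∧ m < j then (L - 1) i m else 0) *
              (if m < i ∧ m < j then (U - 1) m j else 0) := by
          refine Finset.sum_congr rfl fun m _ => ?_
          by_cases h7 : m < i ∧ m < j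
          · rw [if_pos h7, if_pos h7]
          · rw [if_neg h7, if_neg h7, mul_zero]
            rcases not_and_or.1 h7 with h12 | h12
            · rw [LU_X hL (not_lt.1 h12), zero_mul]
            · rw [LU_Y hU (not_lt.1 h12), mul_zero]
        rw [h11]
        exact h10
      rcases le_total i j with h1 | h1
      · rw [LU_X hL h1, zero_add] at hr
        rw [LU_X hL h1]
        exact ⟨z, hr⟩
      · rw [LU_Y hU h1, add_zero] at hr
        rw [LU_Y hU h1]
        exact ⟨hr, z⟩
  obtain ⟨N', hN', h⟩ := key n N hN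
  exact ⟨N', hN', fun L U hL hU hLU i j => h L U hL hU hLU i j (Or.inl i.2)⟩

end Pool.Agent.MPabcfcd
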