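import Pool.Agent.Lib.MP_abcfcd_nt.R.LUb
import Pool.Agent.Lib.MP_abcfcd_nt.T.Uni

/-!
# `LU` decompositions of unitary matrices, and the groups of the two triples

PROOF. `LU_unitary`: `θ(M) = J Mᴴ J` is an anti-automorphism which maps lower unipotent matrices to
lower
unipotent ones and upper to upper (`J` reverses the order of rows and columns, `ᴴ` transposes). From
`θ(g) g = 1`: `g = θ(g)⁻¹ = (θ(U) ... )`: `θ(L U) = θ(U) θ(L)`, so `g = (θ(U) θ(L))⁻¹ = θ(L)⁻¹
θ(U)⁻¹`,
which is a decomposition with lower unipotent `θ(L)⁻¹` and upper unipotent `θ(U)⁻¹`; by uniqueness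
`L = θ(L)⁻¹`, `U = θ(U)⁻¹`, that is, `L` and `U` are unitary. `lo_of_V2`, `up_of_V1`: `mem_V2`,
`mem_V1`: for the grading `a2` the condition `a2 i - a2 j ≥ 2` is `i ≥ j + 2`; for `a1` it implies
`i < j`. `V2_iff`: a lower unipotent unitary matrix is in the group of `t2` if and only if the
entries
`(j + 1, j)` vanish. `V1_iff`: an upper unipotent unitary matrix is in the group of `t1` if and
only if
the entries `(i, j)` with `2 ≤ i < j ≤ 4` (indices from `0`) vanish. `sub_mul`, `mid_mul`: entries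
of
products: if `v` is in the group of `t2` and `a` lower unipotent, then `(v a)(j+1, j) = a (j+1,
j)`; if `v`
is in the group of `t1` and `b` upper unipotent then `(b v)(i, j) = b (i, j)` for `2 ≤ i ≤ j ≤ 4`.
-/

set_option autoImplicit false

open Matrix MeasureTheory Topology
open scoped ENNReal NNReal ComplexConjugate RestrictedProduct

namespace Pool.Agent.MPabcfcd

variable {R : Type} [CommRing R]

private def th (M : M7 (E7 R)) : M7 (E7 R) := J7 (E7 R) * Mᴴ * J7 (E7 R)

private theorem J7_mul_apply (M : M7 (E7 R)) (i j : Fin 7) : (J7 (E7 R) * M) i j = M i.rev j := by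
  rw [Matrix.mul_apply, Finset.sum_eq_single i.rev]
  · simp [J7]
  · intro b _ hb
    have h : ¬ b = i.rev := hb
    simp [J7, h]
  · intro h
    exact absurd (Finset.mem_univ _) h

private theorem mul_J7_apply (M : M7 (E7 R)) (i j : Fin 7) : (M * J7 (E7 R)) i j = M i j.rev := by
  rw [Matrix.mul_apply, Finset.sum_eq_single j.rev]
  · simp [J7]
  · intro b _ hb
    have h : ¬ j = b.rev := fun h => hb (by rw [h, Fin.rev_rev])
    simp [J7, h]
  · intro h
    exact absurd (Finset.mem_univ _) h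

private theorem th_apply (M : M7 (E7 R)) (i j : Fin 7) : th M i j = star (M j.rev i.rev) := by
  rw [th, mul_J7_apply, J7_mul_apply, Matrix.conjTranspose_apply]

private theorem th_mul (M N : M7 (E7 R)) : th (M * N) = th N * th M := by
  rw [th, th, th, Matrix.conjTranspose_mul]
  have h : J7 (E7 R) * J7 (E7 R) = 1 := J7_sq
  calc J7 (E7 R) * (Nᴴ * Mᴴ) * J7 (E7 R) = J7 (E7 R) * Nᴴ * 1 * (Mᴴ * J7 (E7 R)) := by
        rw [Matrix.mul_one]
        simp only [Matrix.mul_assoc]
    _ = J7 (E7 R) * Nᴴ * J7 (E7 R) * (J7 (E7 R) * Mᴴ * J7 (E7 R)) := by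
        rw [← h]
        simp only [Matrix.mul_assoc]

private theorem th_lo {L : M7 (E7 R)} (h : IsLo L) : IsLo (th L) := by
  refine ⟨fun i => ?_, fun i j hij => ?_⟩
  · rw [th_apply, h.1, star_one]
  · rw [th_apply, h.2 _ _ (Fin.rev_lt_rev.2 hij), star_zero]

private theorem th_up {U : M7 (E7 R)} (h : IsUp U) : IsUp (th U) := by
  refine ⟨fun i => ?_, fun i j hij => ?_⟩
  · rw [th_apply, h.1, star_one]
  · rw [th_apply, h.2 _ _ (Fin.rev_lt_rev.2 hij), star_zero]

private theorem unit_of_th {M : M7 (E7 R)} (h : th M * M = 1) : Mᴴ * J7 (E7 R) * M = J7 (E7 R) := by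
  have h2 := congrArg (fun A => J7 (E7 R) * A) h
  simp only [th, Matrix.mul_one] at h2
  have h3 : J7 (E7 R) * J7 (E7 R) = 1 := J7_sq
  calc Mᴴ * J7 (E7 R) * M = 1 * (Mᴴ * J7 (E7 R) * M) := by rw [Matrix.one_mul]
    _ = J7 (E7 R) * (J7 (E7 R) * Mᴴ * J7 (E7 R) * M) := by
        rw [← h3]
        simp only [Matrix.mul_assoc]
    _ = J7 (E7 R) := h2

theorem LU_unitary (g : U7 R) {L U : M7 (E7 R)} (hL : IsLo L) (hU : IsUp U)
    (h : g.mat = L * U) : ∃ a b : U7 R, a.mat = L ∧ b.mat = U ∧ g = a * b := by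
  obtain ⟨L', hL', hL1, hL2⟩ := (th_lo hL).exists_inv
  obtain ⟨U', hU', hU1, hU2⟩ := (th_up hU).exists_inv
  have h1 : th g.mat * g.mat = 1 := g.inv_mul_aux
  have h2 : g.mat = L' * U' := by
    have h3 : th g.mat = th U * th L := by rw [h, th_mul]
    have h4 : (L' * U') * th g.mat = 1 := by
      rw [h3]
      calc L' * U' * (th U * th L) = L' * (U' * th U) * th L := by
            simp only [Matrix.mul_assoc]
        _ = 1 := by rw [hU1, Matrix.mul_one, hL1]
    calc g.mat = 1 * g.mat := by rw [Matrix.one_mul]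
      _ = L' * U' * (th g.mat * g.mat) := by rw [← h4]; simp only [Matrix.mul_assoc]
      _ = L' * U' := by rw [h1, Matrix.mul_one]
  obtain ⟨h5, h6⟩ := LU_unique hL hL' hU hU' (h.symm.trans h2)
  have h7 : th L * L = 1 := by rwa [← h5] at hL2
  have h8 : th U * U = 1 := by rwa [← h6] at hU2
  refine ⟨⟨L, unit_of_th h7⟩, ⟨U, unit_of_th h8⟩, rfl, rfl, U7.ext ?_⟩
  rw [U7.mat_mul]
  exact h

theorem lo_of_V2 (f : ℚ →+* R) {v : U7 R} (h : v ∈ uni (mapM f t2.h) (t2.sk_h.map f)) :
    IsLo v.mat := by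
  rw [mem_V2] at h
  have h1 : ∀ i j, a2 i - a2 j < 2 → v.mat i j = (1 : M7 (E7 R)) i j := fun i j hij => by
    have := h i j hij
    rw [Matrix.sub_apply] at this
    exact sub_eq_zero.1 this
  refine ⟨fun i => ?_, fun i j hij => ?_⟩
  · rw [h1 i i (by simp), Matrix.one_apply_eq]
  · rw [h1 i j ?_, Matrix.one_apply_ne hij.ne]
    revert i j
    decide

theorem up_of_V1 (f : ℚ →+* R) {v : U7 R} (h : v ∈ uni (mapM f t1.h) (t1.sk_h.map f)) :
    IsUp v.mat := by
  rw [mem_V1] at h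
  have h1 : ∀ i j, a1 i - a1 j < 2 → v.mat i j = (1 : M7 (E7 R)) i j := fun i j hij => by
    have := h i j hij
    rw [Matrix.sub_apply] at this
    exact sub_eq_zero.1 this
  refine ⟨fun i => ?_, fun i j hij => ?_⟩
  · rw [h1 i i (by simp), Matrix.one_apply_eq]
  · rw [h1 i j ?_, Matrix.one_apply_ne hij.ne']
    revert i j
    decide

theorem V2_iff (f : ℚ →+* R) {v : U7 R} (h : IsLo v.mat) :
    v ∈ uni (mapM f t2.h) (t2.sk_h.map f) ↔
      ∀ i j : Fin 7, (i : ℕ) = j + 1 → v.mat i j = 0 := by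
  rw [mem_V2]
  constructor
  · intro h1 i j hij
    have h2 := h1 i j (by revert i j; decide)
    have h3 : i ≠ j := by rintro rfl; omega
    rwa [Matrix.sub_apply, Matrix.one_apply_ne h3, sub_zero] at h2
  · intro h1 i j hij
    rw [Matrix.sub_apply]
    rcases lt_trichotomy i j with h2 | h2 | h2
    · rw [h.2 i j h2, Matrix.one_apply_ne h2.ne, sub_zero]
    · subst h2
      rw [h.1 i, Matrix.one_apply_eq, sub_self]
    · rw [Matrix.one_apply_ne h2.ne', sub_zero]
      refine h1 i j ?_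
      revert i j
      decide

theorem V1_iff (f : ℚ →+* R) {v : U7 R} (h : IsUp v.mat) :
    v ∈ uni (mapM f t1.h) (t1.sk_h.map f) ↔
      ∀ i j : Fin 7, 2 ≤ (i : ℕ) → i < j → (j : ℕ) ≤ 4 → v.mat i j = 0 := by
  rw [mem_V1]
  constructor
  · intro h1 i j hi hij hj
    have h2 := h1 i j (by revert i j; decide)
    rwa [Matrix.sub_apply, Matrix.one_apply_ne hij.ne, sub_zero] at h2
  · intro h1 i j hij
    rw [Matrix.sub_apply]
    rcases lt_trichotomy j i with h2 | h2 | h2
    · rw [h.2 i j h2, Matrix.one_apply_ne h2.ne', sub_zero]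
    · subst h2
      rw [h.1 j, Matrix.one_apply_eq, sub_self]
    · rw [Matrix.one_apply_ne h2.ne, sub_zero]
      have h3 : 2 ≤ (i : ℕ) ∧ (j : ℕ) ≤ 4 := by
        revert i j
        decide
      exact h1 i j h3.1 h2 h3.2

theorem sub_mul_V2 (f : ℚ →+* R) {v a : U7 R} (h : v ∈ uni (mapM f t2.h) (t2.sk_h.map f))
    (ha : IsLo a.mat) {i j : Fin 7} (hij : (i : ℕ) = j + 1) :
    (v.mat * a.mat) i j = a.mat i j := by
  have h1 := lo_of_V2 f h
  have h2 := (V2_iff f h1).1 h
  rw [Matrix.mul_apply, Finset.sum_eq_single i]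
  · rw [h1.1, one_mul]
  · intro k _ hk
    rcases lt_trichotomy i k with h3 | h3 | h3
    · rw [h1.2 i k h3, zero_mul]
    · exact absurd h3.symm hk
    · by_cases h4 : k = j
      · subst h4
        rw [h2 i k hij, zero_mul]
      · have h5 : k < j := by
          have h6 : (k : ℕ) ≠ j := fun h7 => h4 (Fin.ext h7)
          rw [Fin.lt_def] at h3 ⊢
          omega
        rw [ha.2 k j h5, mul_zero]
  · intro h3
    exact absurd (Finset.mem_univ _) h3

theorem mid_mul_V1 (f : ℚ →+* R) {v b : U7 R} (h : v ∈ uni (mapM f t1.h) (t1.sk_h.map f))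
    (hb : IsUp b.mat) {i j : Fin 7} (hi : 2 ≤ (i : ℕ)) (hij : i < j) (hj : (j : ℕ) ≤ 4) :
    (b.mat * v.mat) i j = b.mat i j := by
  have h1 := up_of_V1 f h
  have h2 := (V1_iff f h1).1 h
  rw [Matrix.mul_apply, Finset.sum_eq_single j]
  · rw [h1.1, mul_one]
  · intro k _ hk
    rcases lt_trichotomy k i with h3 | h3 | h3
    · rw [hb.2 i k h3, zero_mul]
    · subst h3
      rw [h2 k j hi hij hj, mul_zero]
    · rcases lt_trichotomy k j with h4 | h4 | h4
      · rw [h2 k j (by rw [Fin.lt_def] at h3; omega) h4 hj, mul_zero]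
      · exact absurd h4 hk
      · rw [h1.2 k j h4, mul_zero]
  · intro h3
    exact absurd (Finset.mem_univ _) h3

end Pool.Agent.MPabcfcd
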